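import Pool.Agent.U291.Whit.Card

/-!
# The Whitman number of the dual of the partition lattice on four points

`Setoid A` is the lattice of partitions (equivalence relations) of `A`, ordered by refinement; so
`(Setoid (Fin 4))ᵒᵈ` is the 15-element lattice `L_4^*`. We embed it in the lattice of subgroups of
the group `PSL(2, 11)` of order 660 and thus, sending a subgroup to its partition in left cosets,
in the lattice of partitions of a set with (at most) 660 elements.

The group acts on the projective line over the field with 11 elements. The four coatoms
`{1, 2}, {3, 4}, {1, 4}, {2, 3}` of `L_4^*` go to the stabilizers (of order 55) of four points, the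
coatoms `{1, 3}, {2, 4}` to two icosahedral subgroups; the atoms go to six cyclic subgroups of
order five and one subgroup of order twelve.
-/

set_option autoImplicit false

namespace Pool.Agent.Results.MP_437e5a_co.WhitmanNumber

open Pool.Agent.U291.Whit

/-- The finite lattice `L` is representable by partitions of a set with `n` elements: there is an
injective map from `L` to the partitions which preserves binary joins and meets. -/
def Representable (L : Type) [Lattice L] (n : ℕ) : Prop :=
  ∃ f : LatticeHom L (Setoid (Fin n)), Function.Injective f

/-- `w` is the Whitman number of `L`: the least `n` such that `L` is representable by partitions of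
a set with `n` elements. -/
def IsWhitmanNumber (L : Type) [Lattice L] (w : ℕ) : Prop :=
  IsLeast {n : ℕ | Representable L n} w

/-- transport of partitions along a bijection -/
def relabel {A B : Type} (e : A ≃ B) : Setoid A ≃o Setoid B where
  toFun s := Setoid.comap e.symm s
  invFun s := Setoid.comap e s
  left_inv s := by ext x y; simp [Setoid.comap_rel]
  right_inv s := by ext x y; simp [Setoid.comap_rel]
  map_rel_iff' := by
    intro s t
    constructor
    · intro h x y hxy
      have h1 : Setoid.comap e.symm s (e x) (e y) := by
        rw [Setoid.comap_rel, e.symm_apply_apply, e.symm_apply_apply]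
        exact hxy
      have h2 : Setoid.comap e.symm t (e x) (e y) := h h1
      rw [Setoid.comap_rel, e.symm_apply_apply, e.symm_apply_apply] at h2
      exact h2
    · intro h x y hxy
      exact h hxy

theorem exists_hom_T :
    ∃ f : LatticeHom (Setoid (Fin 4))ᵒᵈ (Setoid T), Function.Injective f := by
  have hT : ∀ π : Setoid (Fin 4), F C π ≤ T := F_T hyp
  refine ⟨{ toFun := fun π => QuotientGroup.leftRel ((F C (OrderDual.ofDual π)).subgroupOf T)
            map_sup' := fun π σ => ?_
            map_inf' := fun π σ => ?_ }, ?_⟩
  · rw [ofDual_sup, F_inf hyp hypJ, ← leftRel_sup, Subgroup.subgroupOf_sup (hT _) (hT _)]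
  · rw [ofDual_inf, F_sup hyp, ← leftRel_inf]
    rfl
  · intro π σ hπσ
    have h1 := leftRel_injective hπσ
    have h2 : F C (OrderDual.ofDual π) = F C (OrderDual.ofDual σ) := by
      have h3 := congrArg (fun H : Subgroup T => H.map T.subtype) h1
      simp only [Subgroup.subgroupOf_map_subtype, inf_eq_left.2 (hT _)] at h3
      exact h3
    exact OrderDual.ofDual.injective (F_injective hyp hypN h2)

/-- **The Whitman number of the dual of the partition lattice on four points is at most 660**, and
so at most `2 ^ 1000`. -/
theorem result : ∃ w : ℕ, IsWhitmanNumber (Setoid (Fin 4))ᵒᵈ w ∧ w ≤ 660 ∧ w ≤ 2 ^ 1000 := by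
  classical
  obtain ⟨f, hf⟩ := exists_hom_T
  have hrep : Representable (Setoid (Fin 4))ᵒᵈ (Nat.card T) := by
    let e : T ≃ Fin (Nat.card T) := Finite.equivFin T
    refine ⟨(relabel e : LatticeHom (Setoid T) (Setoid (Fin (Nat.card T)))).comp f, ?_⟩
    exact (relabel e).injective.comp hf
  have hne : ∃ n, Representable (Setoid (Fin 4))ᵒᵈ n := ⟨_, hrep⟩
  have h1 : Nat.find hne ≤ 660 := (Nat.find_min' hne hrep).trans card_T
  exact ⟨Nat.find hne, ⟨Nat.find_spec hne, fun n hn => Nat.find_min' hne hn⟩, h1,
    h1.trans ((by norm_num : (660 : ℕ) ≤ 2 ^ 10).trans (Nat.pow_le_pow_right (by norm_num) (by norm_num)))⟩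

end Pool.Agent.Results.MP_437e5a_co.WhitmanNumber
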